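import Pool.Agent.P8H89.AS.Fin

/-!
# Conjecture F of Hardy and Littlewood along arbitrary sparse sets of arguments, for almost all `A`, at most scales

At most scales `N`, with `y = N ^ (c / log log N)`: for every set `S` of at least `√N / y` arguments `x ≤ √N` and for
all but `N / log ^ U N` of the odd `A ≤ N` the number of the `x ∈ S`, `x ≤ n`, with `x² + x + A` prime is, for all `n`,
the one predicted from the small primes `p ≤ z` (`z` a power of `log N`) up to `|S| / log ^ U N`. There are no
obstructions but the local ones, however the (quasi power sparse) set `S` is chosen.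

Proof (`Pool.Agent.P8H89.AS`). Let `Λ_Q = ∑_{r ≤ Q} μ(r) c_r / φ(r)` be the truncated model of the primes,
`Q = N ^ (c' / log log N)`. The theorem of this run on arbitrary weights (`Pool.Agent.P8H14.PL.main_QP`, helper14 and
co-authors: `∑_n w(n) (Λ - Λ_Q)(n + f(m))` is small for all but `x / y` of the `m ≤ x`, for every weight `w` with the
right mean square) is applied to `f = x² + x` and to the weight `w(n) = ∑_{x ∈ S} (Λ - Λ_Q)(n + x² + x) / |S|` itself:
this bounds the variance over `n = A`, also for `S` sparser than any power of `log N` (duality). The part of `Λ_Q` with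
all prime factors of `r` at most `z` is the sieve model of the primes on average. The other part has the mean square
`∑_{x, x' ∈ S} ∑_r |c_r(h)| / φ(r)²`, `h = x² + x - x'² - x'`, over `r` with a prime factor `> z`, and the inner sum is
small for every single `h ≠ 0`, since `h` has at most `2 log |h|` prime factors. All `n` at once: a grid of prefixes of
`S`; the weights `1 / log (x² + x + A)`: partial summation.

From the starting files: the sieve model (`Pool.Agent.H373R2.T7`), sums of divisor functions (`Pool.Agent.H398R2`), and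
what `main_QP` uses. Of this run: `Pool.Agent.P8H14.PL`, `Pool.Agent.P8H13.PK` (the model and its correlations).
-/

set_option autoImplicit false

namespace Pool.Agent.Results.MP_8be758_nt.ArbitraryArguments

open Finset

open Classical in
/-- The property `P` holds at most scales: the set of the positive integers `N` with the property `P` has upper
logarithmic density at least `1 - ε`. Precisely, for arbitrarily large `R` the sum of `1 / N` over the `N ≤ R`
without the property is at most `ε log R`. -/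
def MostScales (ε : ℝ) (P : ℕ → Prop) : Prop :=
  ∀ R₀ : ℕ, ∃ R : ℕ, R₀ ≤ R ∧ ∑ N ∈ (Icc 1 R).filter (fun N => ¬ P N), (1 : ℝ) / N ≤ ε * Real.log R

/-- The saving `y = N ^ (c / log log N)`. -/
noncomputable def saving (c : ℝ) (N : ℕ) : ℝ := (N : ℝ) ^ (c / Real.log (Real.log N))

/-- The number of the `x ∈ S` with `x ≤ n` for which `x ^ 2 + x + A` is prime. -/
def primeCount (S : Finset ℕ) (A n : ℕ) : ℕ := (S.filter (fun x => x ≤ n ∧ (x ^ 2 + x + A).Prime)).card

/-- `V(z)`, the product of `1 - 1 / p` over the primes `p ≤ z`. -/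
noncomputable def mertens (z : ℕ) : ℝ := ∏ p ∈ (Icc 1 z).filter Nat.Prime, (1 - 1 / (p : ℝ))

open Classical in
/-- The expected number: `1 / V(z)` times the sum of `1 / log (x ^ 2 + x + A)` over the `x ∈ S` with `x ≤ n` for which
no prime `p ≤ z` divides `x ^ 2 + x + A`. -/
noncomputable def expected (S : Finset ℕ) (A z n : ℕ) : ℝ :=
  (mertens z)⁻¹ * ∑ x ∈ S.filter (fun x => x ≤ n ∧ ∀ p : ℕ, p.Prime → p ≤ z → ¬ p ∣ x ^ 2 + x + A),
    1 / Real.log (x ^ 2 + x + A)

lemma saving_eq {c : ℝ} {N : ℕ} (hN : 1 ≤ N) : saving c N = Pool.Agent.P8H14.QP.sav c N := by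
  unfold saving Pool.Agent.P8H14.QP.sav
  have hN0 : (0 : ℝ) < N := by exact_mod_cast hN
  rw [Real.rpow_def_of_pos hN0]
  congr 1
  ring

lemma expected_eq (S : Finset ℕ) (A z n : ℕ) : expected S A z n = Pool.Agent.P8H89.AS.ex S A z n := by
  classical
  unfold expected Pool.Agent.P8H89.AS.ex
  congr 1
  have h1 : S.filter (fun x => x ≤ n ∧ ∀ p : ℕ, p.Prime → p ≤ z → ¬ p ∣ x ^ 2 + x + A) =
      S.filter (fun x => x ≤ n ∧ ∀ p ∈ Pool.Agent.H373R2.T7.pz z, ¬ p ∣ x ^ 2 + x + A) := by
    apply filter_congr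
    intro x _
    apply and_congr_right
    intro _
    constructor
    · intro h p hp
      rw [Pool.Agent.H373R2.T7.mem_pz] at hp
      exact h p hp.2 hp.1
    · intro h p hp hpz
      exact h p (Pool.Agent.H373R2.T7.mem_pz.2 ⟨hpz, hp⟩)
  have h2 : ∑ x ∈ S.filter (fun x => x ≤ n ∧ ∀ p : ℕ, p.Prime → p ≤ z → ¬ p ∣ x ^ 2 + x + A),
      1 / Real.log ((x : ℝ) ^ 2 + x + A) =
      ∑ x ∈ S.filter (fun x => x ≤ n ∧ ∀ p ∈ Pool.Agent.H373R2.T7.pz z, ¬ p ∣ x ^ 2 + x + A),
        1 / Real.log ((x ^ 2 + x + A : ℕ) : ℝ) := by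
    rw [h1]
    apply sum_congr rfl
    intro x _
    push_cast
    rfl
  convert h2

open Classical in
/-- Let `U` be fixed. There is a `B₀` such that for all `E` and `ε > 0` there is a `c > 0` such that at most scales `N`,
that is on a set of `N` of upper logarithmic density at least `1 - ε`, the following holds with
`y = N ^ (c / log log N)`: for all integers `z` with `log ^ B₀ N ≤ z ≤ log ^ E N` and for EVERY set `S` of integers `x`
with `1 ≤ x ≤ √N` and at least `√N / y` elements, all but at most `N / log ^ U N` of the odd integers `A` with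
`3 ≤ A ≤ N` are such that for all `n` the number of the `x ∈ S`, `x ≤ n`, with `x ^ 2 + x + A` prime differs from the
expected number `(1 / V(z)) ∑ 1 / log (x ^ 2 + x + A)` (the sum over the `x ∈ S`, `x ≤ n`, such that no prime `p ≤ z`
divides `x ^ 2 + x + A`) by at most `|S| / log ^ U N`. -/
theorem result (U : ℕ) : ∃ B₀ : ℕ, ∀ (E : ℕ) (ε : ℝ), 0 < ε → ∃ c : ℝ, 0 < c ∧ MostScales ε (fun N =>
    ∀ z : ℕ, Real.log N ^ B₀ ≤ z → (z : ℝ) ≤ Real.log N ^ E →
      ∀ S : Finset ℕ, (∀ x ∈ S, 1 ≤ x ∧ x ^ 2 ≤ N) → √(N : ℝ) ≤ saving c N * S.card →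
        (((Icc 3 N).filter (fun A => Odd A ∧
          ¬ ∀ n : ℕ, |(primeCount S A n : ℝ) - expected S A z n| ≤ S.card / Real.log N ^ U)).card : ℝ) ≤
          N / Real.log N ^ U) := by
  obtain ⟨B₀, h⟩ := Pool.Agent.P8H89.AS.fin_all U
  refine ⟨B₀, fun E ε hε => ?_⟩
  obtain ⟨c, hc, hmost⟩ := h E ε hε
  refine ⟨c, hc, ?_⟩
  intro R₀
  obtain ⟨R, hR, h3⟩ := hmost R₀
  refine ⟨R, hR, le_trans ?_ h3⟩
  apply sum_le_sum_of_subset_of_nonneg
  · intro N hN
    simp only [mem_filter] at hN ⊢
    refine ⟨hN.1, fun hcon => hN.2 ?_⟩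
    have hN1 : 1 ≤ N := (mem_Icc.1 hN.1).1
    intro z hz1 hz2 S hS hSN
    rw [saving_eq hN1] at hSN
    refine le_trans ?_ (hcon z hz1 hz2 S hS hSN)
    apply Nat.cast_le.2
    apply card_le_card
    intro A hA
    rw [mem_filter] at hA ⊢
    refine ⟨hA.1, fun h4 => hA.2.2 fun n => ?_⟩
    rw [expected_eq]
    exact h4 n
  · intro _ _ _
    positivity

end Pool.Agent.Results.MP_8be758_nt.ArbitraryArguments
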