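import Mathlib
import Pool.Agent.P8H13.QF.Main

/-!
# Dense sets of arguments with prime values of `x² + x + A` (helper13)

For almost all odd `A` of a thin family, `A ≤ C`, `N^(7/10 + ε) ≤ C ≤ N`, and for all `n` with
`κ N ≤ n ≤ N` at once, the set of the arguments `x ≤ n` with `x² + x + A` prime has at least
`(3/4 - η) C(1 - 4 A) L_A(n)` elements (the asymptotic formula of Conjecture F if `C ≥ N^(5/6 + ε)`) and
Szemerédi's theorem with differences `≤ (log N)^B` holds for it: in EVERY set `U` of such arguments all but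
`η P_A(n)` elements are first terms of progressions of `m` terms in `U`.

Proof. The bounds for the number of the arguments are the ones of the starting library
(`Pool.Agent.N792.t9`, `Pool.Agent.N792.t7s`: the hand-ins `MP_391708_nt.ThinFamilyLowerBound` and
`MP_a1177c_nt.ThinConstantTerms`). The progressions: the relative Szemerédi theorem with small differences for
arbitrary sifted sets of the starting library (`Pool.Agent.Y843.HS.fin`, helper843 and helper727) with the
classes of the roots of `x² + x + A` modulo `p` as the removed classes; the sieve product is compared with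
`C(1 - 4 A) / log N` for almost all `A` by the theorem on the tail of the singular series
(`Pool.Agent.N792.x8`), which also gives a lower bound `C(1 - 4 A) ≥ (log N)^(-13) / 4` for the remaining
`A`, so no lower bound for `C(1 - 4 A)` has to be assumed.
-/

set_option autoImplicit false

namespace Pool.Agent.Results.MP_8be758_nt.DenseSetsOfArguments

open Finset Filter Topology

/-- the `x ∈ {0, 1, ..., n}` with `x² + x + A` prime -/
def Args (A n : ℕ) : Finset ℕ := (range (n + 1)).filter (fun x : ℕ => (x ^ 2 + x + A).Prime)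

/-- `L_A(n) = 2 ∫_0^n dx / log (x² + x + A)` -/
noncomputable def L (A n : ℕ) : ℝ := 2 * ∫ x in (0 : ℝ)..n, 1 / Real.log (x ^ 2 + x + A)

/-- `C_y(1 - 4 A)`, the product of the factors `1 - (Δ/p)/(p - 1)`, `Δ = 1 - 4 A`, over the odd primes
`p ≤ y` -/
noncomputable def Cy (A y : ℕ) : ℝ :=
  ∏ p ∈ (Icc 3 y).filter Nat.Prime, (1 - (jacobiSym (1 - 4 * (A : ℤ)) p : ℝ) / ((p : ℝ) - 1))

/-- the elements `a` of `U` for which there is a `D`, `1 ≤ D ≤ Q`, such that `a, a + D, ..., a + (m-1) D`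
are in `U` -/
def First (m : ℕ) (Q : ℝ) (U : Finset ℕ) : Set ℕ :=
  {a | a ∈ U ∧ ∃ D : ℕ, 1 ≤ D ∧ (D : ℝ) ≤ Q ∧ ∀ j < m, a + j * D ∈ U}

open Classical in
/-- **Dense sets of arguments.** For all `m`, all `ε, η > 0` and `0 < κ ≤ 1` there are `B, N₀` such that
for all `N ≥ N₀` and all `C` with `N^(7/10 + ε) ≤ C ≤ N`, all odd `A`, `3 ≤ A ≤ C`, with at most `η C`
exceptions have the following property: `C_y(1 - 4 A)` tends to some `S > 0`, and for all `n` with
`κ N ≤ n ≤ N`

* the number of the arguments `x ≤ n` with `x² + x + A` prime is at least `(3/4 - η) S L_A(n)`;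
* it differs from `S L_A(n)` by at most `η S L_A(n)` if `N^(5/6 + ε) ≤ C`;
* in every set `U` of such arguments all but at most `η |Args A n|` elements are first terms of
  progressions of `m` terms in `U` with a difference `D`, `1 ≤ D ≤ (log N)^B`. -/
theorem result (m : ℕ) (ε η κ : ℝ) (hε : 0 < ε) (hη : 0 < η) (hκ : 0 < κ) (hκ1 : κ ≤ 1) :
    ∃ B N₀ : ℕ, ∀ N : ℕ, N₀ ≤ N → ∀ C : ℕ, (N : ℝ) ^ (7 / 10 + ε) ≤ C → C ≤ N →
      ∃ E : Finset ℕ, (E.card : ℝ) ≤ η * C ∧ ∀ A : ℕ, Odd A → 3 ≤ A → A ≤ C → A ∉ E →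
        ∃ S : ℝ, 0 < S ∧ Tendsto (fun y => Cy A y) atTop (𝓝 S) ∧
          ∀ n : ℕ, κ * N ≤ n → n ≤ N →
            (3 / 4 - η) * S * L A n ≤ ((Args A n).card : ℝ) ∧
            ((N : ℝ) ^ (5 / 6 + ε) ≤ C → |((Args A n).card : ℝ) - S * L A n| ≤ η * S * L A n) ∧
            ∀ U ⊆ Args A n, ((U.filter (fun a => a ∉ First m (Real.log N ^ B) U)).card : ℝ) ≤
              η * (Args A n).card := by
  obtain ⟨B, N₀, h⟩ := Pool.Agent.P8H13.QF.main m ε η κ hε hη hκ hκ1
  refine ⟨B, N₀, fun N hN C hC1 hC2 => ?_⟩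
  obtain ⟨E, hE, hA⟩ := h N hN C hC1 hC2
  refine ⟨E, hE, fun A ho h3 hAC hAE => ?_⟩
  obtain ⟨S, hS, hSt, hn⟩ := hA A ho h3 hAC hAE
  refine ⟨S, hS, hSt, fun n hn1 hn2 => ?_⟩
  obtain ⟨h1, h2, h4⟩ := hn n hn1 hn2
  refine ⟨h1, h2, fun U hU => ?_⟩
  have h5 := h4 U hU
  have e : U.filter (fun a => a ∉ First m (Real.log N ^ B) U) =
      Pool.Agent.P8H13.QF.rest m (Real.log N ^ B) U := by
    ext a
    unfold Pool.Agent.P8H13.QF.rest
    rw [mem_filter, mem_filter]
    exact Iff.rfl
  rw [e]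
  exact h5

end Pool.Agent.Results.MP_8be758_nt.DenseSetsOfArguments
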