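import Pool.Agent.P8H14.EX.R

/-!
# Quadratic polynomials `x² + x + A` with extremely many and with extremely few prime values

Proof (`Pool.Agent.P8H14.EX`). At most scales Conjecture F holds for all but `N^(1 - c / log log N)` of the odd `A ≤ N`
(project CF, `Pool.Agent.P8H14.CF`). Let `z = log ^ (1 - η) N`. By the Chinese remainder theorem there are at least
`N exp(-C z)` odd `A` in `(N / 2, N]` for which `Δ = 1 - 4 A` is a nonresidue (a residue) of all the odd primes
`p ≤ z`, many more than the exceptions. By orthogonality over these `A` the truncated singular series is, for most of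
them, the product over the primes `p ≤ z`, which is evaluated by Mertens' theorem.

The packages of this project are by helper20 (counting by the Chinese remainder theorem), helper44 (orthogonality, mean
squares), helper78 (the singular series in mean square, Chebyshev's bound), helper86 (Mertens' theorem, from the
starting file `Pool.Agent.H305R2.MertensE`). Those of the project CF are by helper78 (major arcs, Weyl sums), helper7
(duality, partial summations), helper89 (from fractions to characters), helper96 (Euler product, singular series),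
helper67 (mean squares, large sieve); from the starting files: `Pool.Agent.W66`, `Pool.Agent.H373R2`,
`Pool.Agent.TH823.PS`, `Pool.Agent.H442R2`, `Pool.Agent.W468`; of this run also `Pool.Agent.P8H13.GK`.
-/

set_option autoImplicit false

namespace Pool.Agent.Results.MP_8be758_nt.ExtremeQuadratics

open Finset Filter Topology

open Classical in
/-- The property `P` holds at most scales: the set of the positive integers `N` with the property `P` has upper
logarithmic density at least `1 - ε`. Precisely, for arbitrarily large `R` the sum of `1 / N` over the `N ≤ R`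
without the property is at most `ε log R`. -/
def MostScales (ε : ℝ) (P : ℕ → Prop) : Prop :=
  ∀ R₀ : ℕ, ∃ R : ℕ, R₀ ≤ R ∧ ∑ N ∈ (Icc 1 R).filter (fun N => ¬ P N), (1 : ℝ) / N ≤ ε * Real.log R

/-- `P_A(n)`, the number of the `x ∈ {0, ..., n}` such that `x ^ 2 + x + A` is prime. -/
def primeCount (A n : ℕ) : ℕ := ((range (n + 1)).filter (fun x => (x ^ 2 + x + A).Prime)).card

/-- `L_A(n) = 2 ∫_0^n dx / log (x ^ 2 + x + A)`. -/
noncomputable def logIntegral (A n : ℕ) : ℝ := 2 * ∫ x in (0 : ℝ)..n, 1 / Real.log (x ^ 2 + x + A)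

/-- `C` is the constant `C(Δ) = ∏_{p ≥ 3} (1 - (Δ / p) / (p - 1))`, `Δ = 1 - 4 A`: the limit of the products over the
odd primes `p ≤ z` for `z → ∞`. -/
def IsConstant (A : ℕ) (C : ℝ) : Prop :=
  Tendsto (fun z : ℕ => ∏ p ∈ (Icc 3 z).filter Nat.Prime,
    (1 - (jacobiSym (1 - 4 * (A : ℤ)) p : ℝ) / ((p : ℝ) - 1))) atTop (𝓝 C)

/-- The twin prime constant `C₂ = ∏_{p ≥ 3} (1 - 1 / (p - 1) ^ 2)`. -/
noncomputable def twinPrimeConstant : ℝ :=
  ∏' p : Nat.Primes, (if (p : ℕ) = 2 then (1 : ℝ) else 1 - 1 / (((p : ℕ) : ℝ) - 1) ^ 2)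

/-- `e ^ γ / 2`, with Euler's constant `γ`. -/
noncomputable def richConstant : ℝ := Real.exp Real.eulerMascheroniConstant / 2

/-- `2 C₂ e ^ (-γ)`. -/
noncomputable def poorConstant : ℝ := 2 * twinPrimeConstant * Real.exp (-Real.eulerMascheroniConstant)

/-- `A` is odd, `C(Δ)` is within `ε log log N` of `(e ^ γ / 2) log log N`, and for all `n` with
`√N / log ^ B N ≤ n ≤ √N` the number `P_A(n)` is within `C(Δ) L_A(n) / log ^ B N` of `C(Δ) L_A(n)` and within
`ε log log N · L_A(n)` of `(e ^ γ / 2) log log N · L_A(n)`. -/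
def PrimeRich (B : ℕ) (ε : ℝ) (N A : ℕ) : Prop := Odd A ∧ ∃ C : ℝ, 0 < C ∧ IsConstant A C ∧
  |C - richConstant * Real.log (Real.log N)| ≤ ε * Real.log (Real.log N) ∧
  ∀ n : ℕ, n ^ 2 ≤ N → (N : ℝ) ≤ n ^ 2 * Real.log N ^ (2 * B) →
    |(primeCount A n : ℝ) - C * logIntegral A n| ≤ C * logIntegral A n / Real.log N ^ B ∧
    |(primeCount A n : ℝ) - richConstant * Real.log (Real.log N) * logIntegral A n| ≤
      ε * Real.log (Real.log N) * logIntegral A n

/-- The same with `2 C₂ e ^ (-γ) / log log N` in the place of `(e ^ γ / 2) log log N`, and the error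
`ε / log log N`. -/
def PrimePoor (B : ℕ) (ε : ℝ) (N A : ℕ) : Prop := Odd A ∧ ∃ C : ℝ, 0 < C ∧ IsConstant A C ∧
  |C - poorConstant / Real.log (Real.log N)| ≤ ε / Real.log (Real.log N) ∧
  ∀ n : ℕ, n ^ 2 ≤ N → (N : ℝ) ≤ n ^ 2 * Real.log N ^ (2 * B) →
    |(primeCount A n : ℝ) - C * logIntegral A n| ≤ C * logIntegral A n / Real.log N ^ B ∧
    |(primeCount A n : ℝ) - poorConstant / Real.log (Real.log N) * logIntegral A n| ≤
      ε / Real.log (Real.log N) * logIntegral A n

open Classical in
/-- Let `B` and `ε > 0` be fixed. There is a `δ > 0` such that at most scales `N`, that is on a set of `N` of upper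
logarithmic density at least `1 - ε`, there are at least `N exp(-log ^ (1 - δ) N)` odd `A` in `(N / 2, N]` such that
`P_A(n) = (e ^ γ / 2 + O(ε)) log log N · L_A(n)` for all `√N / log ^ B N ≤ n ≤ √N`, and there are at least
`N exp(-log ^ (1 - δ) N)` odd `A` in `(N / 2, N]` such that `P_A(n) = (2 C₂ e ^ (-γ) + O(ε)) L_A(n) / log log N` for
all these `n` (both with the implied constant `1`); the constants `C(Δ)` have these sizes, and `P_A(n)` agrees with
Conjecture F with the saving `log ^ B N`. -/
theorem result (B : ℕ) (ε : ℝ) (hε : 0 < ε) : ∃ δ : ℝ, 0 < δ ∧ MostScales ε (fun N =>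
    N * Real.exp (-Real.log N ^ (1 - δ)) ≤ ((Ioc (N / 2) N).filter (PrimeRich B ε N)).card ∧
    N * Real.exp (-Real.log N ^ (1 - δ)) ≤ ((Ioc (N / 2) N).filter (PrimePoor B ε N)).card) :=
  Pool.Agent.P8H14.EX.extU B hε

end Pool.Agent.Results.MP_8be758_nt.ExtremeQuadratics
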