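import Pool.Agent.P8H14.CF.F4

/-!
# Conjecture F of Hardy and Littlewood for `x² + x + A`: at most scales `N`, for all but `N^(1 - c / log log N)` of the
odd `A ≤ N`, uniformly in `n ≤ √N`

Proof (`Pool.Agent.P8H14.CF`). The exponential sum over the values `x² + x` is its major arc model with denominators
`q ≤ Q = N^(c / log log N)` up to a power of `Q`, at all frequencies (Weyl's inequality with its inverse theorem); by
Parseval's equation this reduces the sum over `x` to the model for all but `N / Q^κ` of the `A`. In the model the
fractions are expanded in primitive characters, with the singular series as the part of the principal characters. The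
primes in all primitive characters of conductor `≤ Q` are bounded on average at scales with zero free regions: the
combinatorial identity `Λ = μ_w * log + Λ * (1 - μ_w * 1)` is used twice, so that the sum becomes a correlation of the
primes in a window with two smooth factors, estimated by Plancherel's theorem and the large sieve. The truncated
singular series is compared with the constant `C(Δ)` by the large sieve and the mean square of character sums.

From the starting files: the zero-free region inputs and the kernels (`Pool.Agent.W66`), the inverse theorem for Weyl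
sums (`Pool.Agent.H373R2`), scales without exceptional characters (`Pool.Agent.TH823.PS`), the prime number theorem
(`Pool.Agent.H442R2`), the convergence of the product (`Pool.Agent.W468`). Of this run: scales with zero free regions
(`Pool.Agent.P8H13.GK`), primitive characters (`Pool.Agent.P8H14.QP`); the packages of this project are by helper78
(major arcs, Weyl sums), helper7 (duality, partial summations), helper89 (from fractions to characters), helper96
(Euler product, singular series), helper67 (mean squares, large sieve).
-/

set_option autoImplicit false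

namespace Pool.Agent.Results.MP_8be758_nt.QuasiPowerConjectureF

open Finset Filter Topology

open Classical in
/-- The property `P` holds at most scales: the set of the positive integers `N` with the property `P` has upper
logarithmic density at least `1 - ε`. Precisely, for arbitrarily large `R` the sum of `1 / N` over the `N ≤ R`
without the property is at most `ε log R`. -/
def MostScales (ε : ℝ) (P : ℕ → Prop) : Prop :=
  ∀ R₀ : ℕ, ∃ R : ℕ, R₀ ≤ R ∧ ∑ N ∈ (Icc 1 R).filter (fun N => ¬ P N), (1 : ℝ) / N ≤ ε * Real.log R

/-- The saving `y = N ^ (c / log log N)`. -/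
noncomputable def saving (c : ℝ) (N : ℕ) : ℝ := (N : ℝ) ^ (c / Real.log (Real.log N))

/-- `P_A(n)`, the number of the `x ∈ {0, ..., n}` such that `x ^ 2 + x + A` is prime. -/
def primeCount (A n : ℕ) : ℕ := ((range (n + 1)).filter (fun x => (x ^ 2 + x + A).Prime)).card

/-- `L_A(n) = 2 ∫_0^n dx / log (x ^ 2 + x + A)`. -/
noncomputable def logIntegral (A n : ℕ) : ℝ := 2 * ∫ x in (0 : ℝ)..n, 1 / Real.log (x ^ 2 + x + A)

/-- `C` is the constant `C(Δ) = ∏_{p ≥ 3} (1 - (Δ / p) / (p - 1))`, `Δ = 1 - 4 A`: the limit of the products over the
odd primes `p ≤ z` for `z → ∞`. -/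
def IsConstant (A : ℕ) (C : ℝ) : Prop :=
  Tendsto (fun z : ℕ => ∏ p ∈ (Icc 3 z).filter Nat.Prime,
    (1 - (jacobiSym (1 - 4 * (A : ℤ)) p : ℝ) / ((p : ℝ) - 1))) atTop (𝓝 C)

/-- The formula of Conjecture F for `A`, uniformly for all `n ≤ √N`, with the power `B` of the logarithm: with
`C = C(Δ) > 0`, `|P_A(n) - C L_A(n)| ≤ √N / log ^ B N` for all `n ≤ √N`, and moreover
`|P_A(n) - C L_A(n)| ≤ C L_A(n) / log ^ B N` for all `n` with `√N / log ^ B N ≤ n ≤ √N`. -/
def ConjectureF (B N A : ℕ) : Prop := ∃ C : ℝ, 0 < C ∧ IsConstant A C ∧ ∀ n : ℕ, n ^ 2 ≤ N →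
  |(primeCount A n : ℝ) - C * logIntegral A n| ≤ √(N : ℝ) / Real.log N ^ B ∧
  ((N : ℝ) ≤ n ^ 2 * Real.log N ^ (2 * B) →
    |(primeCount A n : ℝ) - C * logIntegral A n| ≤ C * logIntegral A n / Real.log N ^ B)

open Classical in
/-- Let `B` and `ε > 0` be fixed. There is a `c > 0` such that at most scales `N`, that is on a set of `N` of upper
logarithmic density at least `1 - ε`, the following holds with `y = N ^ (c / log log N)`: for every `M` with
`N / y ≤ M ≤ N`, all but at most `M / y` of the odd integers `A` with `3 ≤ A ≤ M` satisfy the formula of Conjecture F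
of Hardy and Littlewood for `x ^ 2 + x + A`, uniformly for all `n ≤ √N`, with the saving `log ^ B N`:
`P_A(n) = C(Δ) L_A(n) + O(√N / log ^ B N)`, and `P_A(n) = C(Δ) L_A(n) (1 + O(1 / log ^ B N))` for
`√N / log ^ B N ≤ n ≤ √N` (both with the implied constant `1`). -/
theorem result (B : ℕ) (ε : ℝ) (hε : 0 < ε) : ∃ c : ℝ, 0 < c ∧ MostScales ε (fun N =>
    ∀ M : ℕ, M ≤ N → (N : ℝ) ≤ saving c N * M →
      (((Icc 3 M).filter (fun A => Odd A ∧ ¬ ConjectureF B N A)).card : ℝ) ≤ M / saving c N) := by
  obtain ⟨c, hc, hmost⟩ := Pool.Agent.P8H14.CF.final B hε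
  refine ⟨c, hc, ?_⟩
  intro R₀
  obtain ⟨R, hR, h3⟩ := hmost R₀
  refine ⟨R, hR, le_trans ?_ h3⟩
  apply sum_le_sum_of_subset_of_nonneg
  · intro N hN
    simp only [mem_filter] at hN ⊢
    refine ⟨hN.1, fun hcon => hN.2 ?_⟩
    have hN1 : 1 ≤ N := (mem_Icc.1 hN.1).1
    have hs : saving c N = Pool.Agent.P8H14.QP.sav c N := by
      unfold saving Pool.Agent.P8H14.QP.sav
      have hN0 : (0 : ℝ) < N := by exact_mod_cast hN1
      rw [Real.rpow_def_of_pos hN0]
      congr 1
      ring
    intro M hM hNM
    rw [hs] at hNM ⊢
    exact hcon M hM hNM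
  · intro _ _ _
    positivity

end Pool.Agent.Results.MP_8be758_nt.QuasiPowerConjectureF
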